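import Pool.Agent.N251.LF.Win
import Pool.Agent.N251.LF.Fields
import Pool.Agent.Results.MP_e44225_nt.OneExceptionalSet

/-!
# The error term in Vojta's inequality for all curves at all points over all elements whose radicals are near the values of
# generic linear forms

Let `v_i`, `i` in a countable set, be vectors in `ℝ ^ l`, `O(X ^ (τ + ε))` of them of norm at most `X` for every `ε > 0`: for
instance `(1, n, …, n ^ d)` with `τ = 1 / d`, or `(b_1 ^ (n_1), …, b_l ^ (n_l))`, `b_j > 1`, for all `n_1, …, n_l`, with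
`τ = 0`, or `(n_1 ^ (a_1), …, n_l ^ (a_l))` with `τ = ∑ 1 / a_j`. Let `K` be a number field, `a_1, …, a_q`, `q ≥ 3`, distinct
rational numbers and `R(x)` the exponential of the truncated counting function of `[a_1] + … + [a_q]` at `x`; there are
`X ^ (2 / q + o(1))` elements `x` of `K`, of whatever height, with `R(x) ≤ X`. For `κ > 0` there is `ν > 0` such that for
`θ < 1` and all `α` in `ℝ ^ l` outside a set of Hausdorff dimension at most `l - 1 + (2 / q - ν + τ) / (1 - θ)`, the same set
for all curves, and for all `c` the following holds for all but finitely many `i`: for ALL number fields `k`, ALL smooth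
projective curves `C` over `k` and ALL finite maps `t : C → ℙ¹` over `k` which are unramified outside the fibres over the
`a_j` (by Belyi's theorem every curve has such maps, and every reduced divisor `D` of `C` is contained in the union `F` of the
fibres over the `a_j` for some such map) all points `P` of all degrees over ALL `x` in `K` with
`|R(x) - α · v_i| ≤ c ‖v_i‖ ^ θ` satisfy
`m_S(F, P) + (deg K_C / N) h(x) ≤ d(L) - (2 - κ) h(x) + ∑_{p ∈ S} log p + c'` for all finite sets `S` of primes and all number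
fields `L` over which `P` is defined, and, with finitely many exceptions `x` for each `S`,
`m_S(F, P) + (deg K_C / N) h(x) < d(L) - (2 - κ) h(x)`. For `2 / q - ν + τ + θ < 1` the bound is less than `l`, and so the
statement holds for almost all `α`: for almost all polynomials of degree `d ≥ 3` (`q ≥ 3`) and the `x` with `R(x)` near
their values, and for almost all linear combinations of powers `b_j ^ (n_j)`.

Proof. By the starting theorem `OneExceptionalSet` of this problem the exceptional `x` are in one set with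
`O (X ^ (2 / q - ν))` elements with `R(x) ≤ X`. For each `i` the `α` with an exceptional `x` near `α · v_i` are in few
neighbourhoods of parallel affine hyperplanes, which are covered by small cubes (tool of helper251, `Pool.Agent.N251.LF`).
-/

set_option autoImplicit false

namespace Pool.Agent.Results.MP_e44225_nt.LinearForms

open Polynomial IsDedekindDomain NumberField MeasureTheory
open Pool.Agent.N251.LF (Fam Sq linear_windows null_of_dim)
open OneExceptionalSet (coord height proximity counting logDisc canonical Values)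

/-- `R(x)`, the exponential of the truncated counting function of `[a_1] + … + [a_q]` at `x` -/
noncomputable def rad {K : Type} [Field K] [NumberField K] {q : ℕ} (a : Fin q → ℚ) (x : K) : ℝ :=
  Real.exp (counting (fun j => algebraMap ℚ K (a j)) x)

/-- **Theorem.** Let `K` be a number field, `a_1, …, a_q`, `q ≥ 3`, distinct rational numbers and `κ > 0`. There is `ν > 0`
with the following property. Let the vectors `v_i` in `ℝ ^ l` have exponent at most `τ ≥ 0` (`Fam v τ`: at most
`C X ^ (τ + ε)` of them have norm at most `X`) and `θ < 1`. There is a set `E` in `ℝ ^ l` of Hausdorff dimension at most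
`l - 1 + (2 / q - ν + τ) / (1 - θ)`, such that for all `α` not in `E` and all `c` there is a finite set `I` such that the
following holds for all number fields `k`. Let `A` be a Dedekind domain, finite over `k[t]` and containing it, and let
`y_{j 0} = t - a_j, y_{j 1}, …` be elements of the radical of the ideal `(t - a_j)` of `A`, for example generators. Write `g` for
`q - 2 - (∑_j dim (A / (y_{j 0}, y_{j 1}, …))) / N`. (a) There is a constant `c'` such that for all `i` not in `I` and ALL `x` in
`K`, different from the `a_j`, with `|R(x) - α · v_i| ≤ c ‖v_i‖ ^ θ`, all points `P` of the curve with `t(P) = x`, all number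
fields `L` containing `k` and `K` over which `P` is defined and all finite sets `S` of primes satisfy
`m_S(F, P) + g h(x) ≤ d(L) - (2 - κ) h(x) + ∑_{p ∈ S} log p + c'`. (b) For every finite set `S` of primes, all but finitely many
of these `x` satisfy `m_S(F, P) + g h(x) < d(L) - (2 - κ) h(x)` for all these `P` and `L`. Sets of dimension less than `l` are
null sets. The vectors `(1, n, …, n ^ d)` have exponent `1 / d`, the vectors `(b_1 ^ (n_1), …, b_l ^ (n_l))` exponent `0`, the
vectors `(n_1 ^ (a_1), …, n_l ^ (a_l))` exponent `∑ 1 / a_j`, and more generally products of sequences have the sum of the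
exponents. -/
theorem result (K : Type) [Field K] [NumberField K] (q : ℕ) (hq : 3 ≤ q) (a : Fin q → ℚ)
    (ha : Function.Injective a) (κ : ℝ) (hκ : 0 < κ) :
    (∃ ν : ℝ, 0 < ν ∧ ν ≤ 2 / (q : ℝ) ∧ ∀ (l : ℕ) (ι : Type) (v : ι → Fin l → ℝ) (τ θ : ℝ), Fam v τ → 0 ≤ τ → θ < 1 →
      ∃ E : Set (Fin l → ℝ), dimH E ≤ ENNReal.ofReal ((l : ℝ) - 1 + (2 / (q : ℝ) - ν + τ) / (1 - θ)) ∧
      ∀ α, α ∉ E → ∀ c : ℝ, ∃ I : Set ι, I.Finite ∧
      ∀ (k : Type) [Field k] [NumberField k] (A : Type) [CommRing A] [IsDedekindDomain A]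
        [Algebra k A] [Algebra k[X] A] [IsScalarTower k k[X] A] [Module.Finite k[X] A]
        [FaithfulSMul k[X] A] (u : Fin q → ℕ) (y : ∀ j, Fin (u j + 1) → A),
        (∀ j, y j 0 = coord k A - algebraMap k A (algebraMap ℚ k (a j))) →
        (∀ j i, y j i ∈
          (Ideal.span {coord k A - algebraMap k A (algebraMap ℚ k (a j))}).radical) →
        (∃ c' : ℝ, ∀ i : ι, i ∉ I → ∀ x : K,
          (∀ j, x ≠ algebraMap ℚ K (a j)) → |rad a x - ∑ j, α j * v i j| ≤ c * ‖v i‖ ^ θ →
          ∀ (L : Type) [Field L] [NumberField L] [Algebra K L] [Algebra k L] (φ : A →ₐ[k] L),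
            φ (coord k A) = algebraMap K L x → ∀ S : Finset ℕ, (∀ p ∈ S, p.Prime) →
              proximity S y φ + canonical k y * height x ≤
                logDisc L - (2 - κ) * height x + ∑ p ∈ S, Real.log p + c') ∧
        ∀ S : Finset ℕ, (∀ p ∈ S, p.Prime) → ∃ R : Set K, R.Finite ∧
          ∀ i : ι, i ∉ I → ∀ x : K, x ∉ R →
          (∀ j, x ≠ algebraMap ℚ K (a j)) → |rad a x - ∑ j, α j * v i j| ≤ c * ‖v i‖ ^ θ →
          ∀ (L : Type) [Field L] [NumberField L] [Algebra K L] [Algebra k L] (φ : A →ₐ[k] L),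
            φ (coord k A) = algebraMap K L x →
              proximity S y φ + canonical k y * height x < logDisc L - (2 - κ) * height x) ∧
    (∀ (l : ℕ) (E : Set (Fin l → ℝ)) (s : ℝ), 1 ≤ l → dimH E ≤ ENNReal.ofReal s → s < l → volume E = 0) ∧
    (∀ d : ℕ, 1 ≤ d → Fam (fun (n : ℕ) (j : Fin (d + 1)) => (n : ℝ) ^ (j : ℕ)) (1 / d)) ∧
    (∀ (k : ℕ) (b : Fin k → ℝ), (∀ j, 1 < b j) → Fam (fun (n : Fin k → ℕ) (j : Fin k) => b j ^ n j) 0) ∧
    (∀ (k : ℕ) (a : Fin k → ℝ), (∀ j, 0 < a j) →
      Fam (fun (n : Fin k → ℕ) (j : Fin k) => (n j : ℝ) ^ a j) (∑ j, 1 / a j)) ∧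
    ∀ (k : ℕ) (u : Fin k → ℕ → ℝ) (τ : Fin k → ℝ), (∀ j, Sq (u j) (τ j)) →
      Fam (fun (n : Fin k → ℕ) (j : Fin k) => u j (n j)) (∑ j, τ j) := by
  refine ⟨?_, fun l E s hl hE hs => ?_, Pool.Agent.N251.LF.examples⟩
  · obtain ⟨hval, hres⟩ := OneExceptionalSet.result K q hq a ha
    obtain ⟨E, ⟨ν, C, hν, hC, hcount⟩, -, hE⟩ := hres κ hκ
    have hfin : ∀ X : ℝ, 1 ≤ X → (Values K a X).Finite := by
      obtain ⟨⟨C1, h1⟩, -⟩ := hval 1 one_pos
      exact fun X hX => (h1 X hX).1
    have hq0 : (0 : ℝ) < q := by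
      have : 0 < q := by omega
      exact_mod_cast this
    have hg : 0 < 2 / (q : ℝ) := by positivity
    obtain ⟨ν', hν'⟩ : ∃ ν', ν' = min ν (2 / (q : ℝ)) := ⟨_, rfl⟩
    have hν'0 : 0 < ν' := by rw [hν']; exact lt_min hν hg
    have hν'1 : ν' ≤ ν := by rw [hν']; exact min_le_left _ _
    have hν'2 : ν' ≤ 2 / (q : ℝ) := by rw [hν']; exact min_le_right _ _
    refine ⟨ν', hν'0, hν'2, fun l ι v τ θ hv hτ hθ => ?_⟩
    obtain ⟨S₀, hS₀⟩ : ∃ S₀ : Set K, S₀ = {x : K | x ∈ E ∧ ∀ j, x ≠ algebraMap ℚ K (a j)} := ⟨_, rfl⟩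
    obtain ⟨Ex, hEx, hEx2⟩ := linear_windows S₀ (fun x : K => rad a x) v (s := 2 / (q : ℝ) - ν')
      (by linarith) hτ hθ hv (fun ε hε => by
        refine ⟨C, fun X hX => ?_⟩
        have hX0 : 0 < X := by linarith
        have hsub : {x : K | x ∈ S₀ ∧ rad a x ≤ X} ⊆ E ∩ Values K a X := by
          rintro x ⟨h1, h2⟩
          rw [hS₀] at h1
          refine ⟨h1.1, h1.2, ?_⟩
          rw [Real.le_log_iff_exp_le hX0]
          exact h2
        have hf2 : (E ∩ Values K a X).Finite := (hfin X hX).subset Set.inter_subset_right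
        refine ⟨hf2.subset hsub, ?_⟩
        have e1 : X ^ (2 / (q : ℝ) - ν) ≤ X ^ (2 / (q : ℝ) - ν' + ε) :=
          Real.rpow_le_rpow_of_exponent_le hX (by linarith)
        calc ({x : K | x ∈ S₀ ∧ rad a x ≤ X}.ncard : ℝ) ≤ ((E ∩ Values K a X).ncard : ℝ) := by
              exact_mod_cast Set.ncard_le_ncard hsub hf2
          _ ≤ C * X ^ (2 / (q : ℝ) - ν) := hcount X hX
          _ ≤ C * X ^ (2 / (q : ℝ) - ν' + ε) := mul_le_mul_of_nonneg_left e1 hC.le)
    refine ⟨Ex, hEx, fun α hα c => ?_⟩
    refine ⟨_, hEx2 α hα c, fun k _ _ A _ _ _ _ _ _ _ u y hy1 hy2 => ?_⟩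
    obtain ⟨h1, h2⟩ := hE k A u y hy1 hy2
    have hnot : ∀ (i : ι) (x : K), i ∉ {i | ∃ t ∈ S₀, |rad a t - ∑ j, α j * v i j| ≤ c * ‖v i‖ ^ θ} →
        (∀ j, x ≠ algebraMap ℚ K (a j)) → |rad a x - ∑ j, α j * v i j| ≤ c * ‖v i‖ ^ θ → x ∉ E := by
      intro i x hi hx hw hxE
      apply hi
      refine ⟨x, ?_, hw⟩
      rw [hS₀]
      exact ⟨hxE, hx⟩
    constructor
    · obtain ⟨c', hc'⟩ := h1
      exact ⟨c', fun i hi x hx hw L _ _ _ _ φ hφ S hS => hc' x (hnot i x hi hx hw) hx L φ hφ S hS⟩
    · intro S hS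
      obtain ⟨R, hR, hR2⟩ := h2 S hS
      exact ⟨R, hR, fun i hi x hxR hx hw L _ _ _ _ φ hφ => hR2 x (hnot i x hi hx hw) hxR hx L φ hφ⟩
  · exact null_of_dim hE (by rw [Fintype.card_fin]; exact hs) (by rw [Fintype.card_fin]; omega)

end Pool.Agent.Results.MP_e44225_nt.LinearForms
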