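import Pool.Agent.K6.H61.PW.Ex
import Pool.Agent.Results.MP_e44225_nt.OneExceptionalSet

/-!
# The error term in Vojta's inequality for all curves at all points over all elements whose radicals are near the
# values of given functions of a real parameter, for example near the powers of a real number

Let `K` be a number field, `a_1, …, a_q`, `q ≥ 3`, distinct rational numbers and `R(x)` the exponential of the truncated
counting function of `[a_1] + … + [a_q]` at `x`; there are `X ^ (2 / q + o(1))` elements `x` of `K`, of whatever height,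
with `R(x) ≤ X`. Let `g_1, g_2, …` be functions on an interval `(α, β)` with
`g_k(t') - g_k(t) ≥ c₀ g_k(t) (t' - t)` for `t < t'` and `g_k ≥ u_k ≥ 1`, where `∑ u_k ^ (-η)` converges for all `η > τ`
(`Family α β c₀ τ g u`). Examples are

* `(k + 2) ^ t` on `(α, ∞)`, with `τ = 1 / α`,
* `t ^ (n_k)` on `(α, β)`, `1 < α`, with real `n_k ≥ k + 1`, for example `t ^ k`, `t ^ (k ^ 2)` and `t ^ (3 ^ k)`, with `τ = 0`,
* `v_k t ^ (n_k)` on `(α, β)`, `0 < α`, with `n_k ≥ 1` and `v_k α ^ (n_k) ≥ 1`,
* all functions with `g_k(t) / t` nondecreasing and `g_k ≥ u_k ≥ 1` on `(α, β)`, `α ≥ 0`, for example (with `τ = 0`) the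
  iterates of a function `g` on `(α, ∞)`, `α ≥ 1`, with `g(t) / t` nondecreasing and `g(t) ≥ r t`, `r > 1`.

For `κ > 0` there is `ν > 0` such that for `0 ≤ θ < 1` and for all `t` outside a set of Hausdorff dimension at most
`(2 / q - ν + τ) / (1 - θ)`, the same set for all curves, and for all `c` the following holds for all large `n`: for ALL number
fields `k`, ALL smooth projective curves `C` over `k` and ALL finite maps `C → ℙ¹` over `k` which are unramified outside
the fibres over the `a_j` (by Belyi's theorem every curve has such maps, and every reduced divisor `D` of `C` is contained in the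
union `F` of the fibres over the `a_j` for some such map) all points `P` of all degrees over ALL `x` in `K` with
`|R(x) - g_n(t)| ≤ c g_n(t) ^ θ` satisfy `m_S(F, P) + (deg K_C / N) h(x) ≤ d(L) - (2 - κ) h(x) + ∑_{p ∈ S} log p + c'` for all
finite sets `S` of primes and all number fields `L` over which `P` is defined, and, with finitely many exceptions `x` for each
`S`, `m_S(F, P) + (deg K_C / N) h(x) < d(L) - (2 - κ) h(x)`. In particular, if `2 / q - ν + τ + θ < 1`, this holds for almost
all `t`; for the powers of a real number `t > 1` the exceptional set has dimension at most `(2 / q - ν) / (1 - θ)`.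

Proof. By the starting theorem `OneExceptionalSet` of this problem the exceptional `x` are in one set with
`O (X ^ (2 / q - ν))` elements with `R(x) ≤ X`. For each `k` and each `x` of this set the `t` with
`|R(x) - g_k(t)| ≤ c g_k(t) ^ θ` form a set of diameter `O (R(x) ^ (θ - 1))`, which is empty unless `u_k ≤ 2 R(x)`. The sum of
the powers of these diameters with an exponent `> (2 / q - ν + τ) / (1 - θ)` over all `k` and `x` converges.
-/

set_option autoImplicit false

namespace Pool.Agent.Results.MP_e44225_nt.PowersOfReals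

open Polynomial IsDedekindDomain NumberField Filter
open Pool.Agent.K6.H61.PW (Family family_exp family_pow family_npow family_star dim_family)
open OneExceptionalSet (coord height proximity counting logDisc canonical Values)

/-- `R(x)`, the exponential of the truncated counting function of `[a_1] + … + [a_q]` at `x` -/
noncomputable def rad {K : Type} [Field K] [NumberField K] {q : ℕ} (a : Fin q → ℚ) (x : K) : ℝ :=
  Real.exp (counting (fun j => algebraMap ℚ K (a j)) x)

/-- **Theorem.** Let `K` be a number field, `a_1, …, a_q`, `q ≥ 3`, distinct rational numbers and `κ > 0`. There is `ν > 0`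
with the following property. Let `g_n`, `n = 0, 1, 2, …`, be functions on `(α, β)` with
`g_n(t') - g_n(t) ≥ c₀ g_n(t) (t' - t)` for `t < t'` and `g_n ≥ u_n ≥ 1`, where `∑ u_n ^ (-η)` converges for all `η > τ`, `τ ≥ 0`,
and let `0 ≤ θ < 1`. There is a set `E` of real numbers of Hausdorff dimension at most `(2 / q - ν + τ) / (1 - θ)`, such that for
all `t` in `(α, β)` not in `E` and all `c` there is `n₀` such that the following holds for all number fields `k`. Let `A` be a
Dedekind domain, finite over `k[T]` and containing it, and let `y_{j 0} = T - a_j, y_{j 1}, …` be elements of the radical of the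
ideal `(T - a_j)` of `A`, for example generators. Write `g` for `q - 2 - (∑_j dim (A / (y_{j 0}, y_{j 1}, …))) / N`. (a) There is a
constant `c'` such that for all `n ≥ n₀` and ALL `x` in `K`, different from the `a_j`, with `|R(x) - g_n(t)| ≤ c g_n(t) ^ θ`, all
points `P` of the curve over `x`, all number fields `L` containing `k` and `K` over which `P` is defined and all finite sets `S`
of primes satisfy `m_S(F, P) + g h(x) ≤ d(L) - (2 - κ) h(x) + ∑_{p ∈ S} log p + c'`. (b) For every finite set `S` of primes, all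
but finitely many of these `x` satisfy `m_S(F, P) + g h(x) < d(L) - (2 - κ) h(x)` for all these `P` and `L`. The functions
`(n + 2) ^ t` (with `τ = 1 / α`), `t ^ (m_n)` with `m_n ≥ n + 1` (with `τ = 0`, for `α > 1`), `v_n t ^ (m_n)` and all functions
with `g_n(t) / t` nondecreasing are examples. -/
theorem result (K : Type) [Field K] [NumberField K] (q : ℕ) (hq : 3 ≤ q) (a : Fin q → ℚ)
    (ha : Function.Injective a) (κ : ℝ) (hκ : 0 < κ) :
    (∃ ν : ℝ, 0 < ν ∧ ν ≤ 2 / (q : ℝ) ∧ ∀ (α β c₀ τ θ : ℝ) (g : ℕ → ℝ → ℝ) (u : ℕ → ℝ),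
      Family α β c₀ τ g u → 0 ≤ τ → 0 ≤ θ → θ < 1 →
      ∃ E : Set ℝ, dimH E ≤ ENNReal.ofReal ((2 / (q : ℝ) - ν + τ) / (1 - θ)) ∧
      ∀ t, α < t → t < β → t ∉ E → ∀ c : ℝ, ∃ n₀ : ℕ,
      ∀ (k : Type) [Field k] [NumberField k] (A : Type) [CommRing A] [IsDedekindDomain A]
        [Algebra k A] [Algebra k[X] A] [IsScalarTower k k[X] A] [Module.Finite k[X] A]
        [FaithfulSMul k[X] A] (l : Fin q → ℕ) (y : ∀ j, Fin (l j + 1) → A),
        (∀ j, y j 0 = coord k A - algebraMap k A (algebraMap ℚ k (a j))) →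
        (∀ j i, y j i ∈
          (Ideal.span {coord k A - algebraMap k A (algebraMap ℚ k (a j))}).radical) →
        (∃ c' : ℝ, ∀ n : ℕ, n₀ ≤ n → ∀ x : K,
          (∀ j, x ≠ algebraMap ℚ K (a j)) → |rad a x - g n t| ≤ c * g n t ^ θ →
          ∀ (L : Type) [Field L] [NumberField L] [Algebra K L] [Algebra k L] (φ : A →ₐ[k] L),
            φ (coord k A) = algebraMap K L x → ∀ S : Finset ℕ, (∀ p ∈ S, p.Prime) →
              proximity S y φ + canonical k y * height x ≤
                logDisc L - (2 - κ) * height x + ∑ p ∈ S, Real.log p + c') ∧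
        ∀ S : Finset ℕ, (∀ p ∈ S, p.Prime) → ∃ R : Set K, R.Finite ∧
          ∀ n : ℕ, n₀ ≤ n → ∀ x : K, x ∉ R →
          (∀ j, x ≠ algebraMap ℚ K (a j)) → |rad a x - g n t| ≤ c * g n t ^ θ →
          ∀ (L : Type) [Field L] [NumberField L] [Algebra K L] [Algebra k L] (φ : A →ₐ[k] L),
            φ (coord k A) = algebraMap K L x →
              proximity S y φ + canonical k y * height x < logDisc L - (2 - κ) * height x) ∧
    (∀ α β : ℝ, 0 < α → Family α β (Real.log 2) (1 / α) (fun n t => ((n : ℝ) + 2) ^ t)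
      (fun n => ((n : ℝ) + 2) ^ α)) ∧
    (∀ (α β : ℝ) (m : ℕ → ℝ), 1 < α → 0 < β → (∀ n : ℕ, (n : ℝ) + 1 ≤ m n) →
      Family α β (1 / β) 0 (fun n t => t ^ m n) (fun n => α ^ m n)) ∧
    (∀ (α β τ : ℝ) (v m : ℕ → ℝ), 0 < α → 0 < β → (∀ n, 1 ≤ m n) → (∀ n, 1 ≤ v n * α ^ m n) →
      (∀ η, τ < η → Summable fun n => (v n * α ^ m n) ^ (-η)) →
      Family α β (1 / β) τ (fun n t => v n * t ^ m n) (fun n => v n * α ^ m n)) ∧
    ∀ (α β τ : ℝ) (f : ℕ → ℝ → ℝ) (u : ℕ → ℝ), 0 ≤ α → 0 < β →
      (∀ n t t', α < t → t < t' → t' < β → f n t / t ≤ f n t' / t') →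
      (∀ n t, α < t → t < β → u n ≤ f n t) → (∀ n, 1 ≤ u n) →
      (∀ η, τ < η → Summable fun n => u n ^ (-η)) → Family α β (1 / β) τ f u := by
  refine ⟨?_, fun α β hα => family_exp hα, fun α β m hα hβ hm => family_npow hα hβ hm,
    fun α β τ v m hα hβ hm hv hs => family_pow hα hβ hm hv hs,
    fun α β τ f u hα hβ hf hlow hone hs => family_star hα hβ hf hlow hone hs⟩
  obtain ⟨hval, hres⟩ := OneExceptionalSet.result K q hq a ha
  obtain ⟨E, ⟨ν, C, hν, hC, hcount⟩, -, hE⟩ := hres κ hκ
  have hfin : ∀ X : ℝ, 1 ≤ X → (Values K a X).Finite := by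
    obtain ⟨⟨C1, h1⟩, -⟩ := hval 1 one_pos
    exact fun X hX => (h1 X hX).1
  have hq0 : (0 : ℝ) < q := by
    have : 0 < q := by omega
    exact_mod_cast this
  have hg2 : 0 < 2 / (q : ℝ) := by positivity
  obtain ⟨ν', hν'⟩ : ∃ ν', ν' = min ν (2 / (q : ℝ)) := ⟨_, rfl⟩
  have hν'0 : 0 < ν' := by rw [hν']; exact lt_min hν hg2
  have hν'1 : ν' ≤ ν := by rw [hν']; exact min_le_left _ _
  have hν'2 : ν' ≤ 2 / (q : ℝ) := by rw [hν']; exact min_le_right _ _
  refine ⟨ν', hν'0, hν'2, fun α β c₀ τ θ g u hg hτ hθ hθ1 => ?_⟩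
  obtain ⟨S₀, hS₀⟩ : ∃ S₀ : Set K, S₀ = {x : K | x ∈ E ∧ ∀ j, x ≠ algebraMap ℚ K (a j)} := ⟨_, rfl⟩
  refine ⟨_, dim_family S₀ (fun x : K => rad a x) hg hτ (s := 2 / (q : ℝ) - ν') (by linarith) hθ1 hθ
    (fun ε hε => by
      refine ⟨C, fun X hX => ?_⟩
      have hX0 : 0 < X := by linarith
      have hsub : {x : K | x ∈ S₀ ∧ rad a x ≤ X} ⊆ E ∩ Values K a X := by
        rintro x ⟨h1, h2⟩
        rw [hS₀] at h1
        refine ⟨h1.1, h1.2, ?_⟩
        rw [Real.le_log_iff_exp_le hX0]
        exact h2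
      have hf2 : (E ∩ Values K a X).Finite := (hfin X hX).subset Set.inter_subset_right
      refine ⟨hf2.subset hsub, ?_⟩
      have e1 : X ^ (2 / (q : ℝ) - ν) ≤ X ^ (2 / (q : ℝ) - ν' + ε) :=
        Real.rpow_le_rpow_of_exponent_le hX (by linarith)
      calc ({x : K | x ∈ S₀ ∧ rad a x ≤ X}.ncard : ℝ) ≤ ((E ∩ Values K a X).ncard : ℝ) := by
            exact_mod_cast Set.ncard_le_ncard hsub hf2
        _ ≤ C * X ^ (2 / (q : ℝ) - ν) := hcount X hX
        _ ≤ C * X ^ (2 / (q : ℝ) - ν' + ε) := mul_le_mul_of_nonneg_left e1 hC.le), ?_⟩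
  intro t ht1 ht2 ht c
  have hev : ∀ᶠ n in atTop, ∀ x : K, (∀ j, x ≠ algebraMap ℚ K (a j)) →
      |rad a x - g n t| ≤ c * g n t ^ θ → x ∉ E := by
    by_contra hcon
    apply ht
    refine ⟨ht1, ht2, c, ?_⟩
    rw [not_eventually] at hcon
    refine hcon.mono fun n hn => ?_
    push Not at hn
    obtain ⟨x, h1, h2, h3⟩ := hn
    refine ⟨x, ?_, h2⟩
    rw [hS₀]
    exact ⟨h3, h1⟩
  obtain ⟨n₀, hn₀⟩ := eventually_atTop.1 hev
  refine ⟨n₀, fun k _ _ A _ _ _ _ _ _ _ l y hy1 hy2 => ?_⟩
  obtain ⟨h1, h2⟩ := hE k A l y hy1 hy2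
  constructor
  · obtain ⟨c', hc'⟩ := h1
    exact ⟨c', fun n hn x hx hw L _ _ _ _ φ hφ S hS => hc' x (hn₀ n hn x hx hw) hx L φ hφ S hS⟩
  · intro S hS
    obtain ⟨R, hR, hR2⟩ := h2 S hS
    exact ⟨R, hR, fun n hn x hxR hx hw L _ _ _ _ φ hφ => hR2 x (hn₀ n hn x hx hw) hxR hx L φ hφ⟩

end Pool.Agent.Results.MP_e44225_nt.PowersOfReals
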