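import Pool.Agent.K6.H40.RandNear
import Pool.Agent.Results.MP_e44225_nt.OneExceptionalSet

/-!
# The error term in Vojta's inequality for all curves at all points over all elements whose radicals are near functions of
# the elements of a random set

Let `K` be a number field, `a_1, …, a_q`, `q ≥ 3`, distinct rational numbers and `R(x)` the exponential of the truncated
counting function of `[a_1] + … + [a_q]` at `x`; there are `X ^ (2 / q + o(1))` elements `x` of `K`, of whatever height, with
`R(x) ≤ X`. Let `T` be a random set of positive integers, with probability at most `D n ^ (-γ)` that `n` belongs to it; no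
independence is assumed. Let `G` have steps bounded below by a positive constant and growth at most `v ^ d`, for example
`a v ^ d`, and `0 ≤ θ ≤ 1`. For `κ > 0` there is `ν > 0` such that for `d (2 / q - ν) + θ < γ` almost surely the following holds
for all large `n` in `T`, for ALL number fields `k`, ALL smooth projective curves `C` over `k` and ALL finite maps
`t : C → ℙ¹` over `k` which are unramified outside the fibres over the `a_j` (by Belyi's theorem every curve has such maps, and
every reduced divisor `D` of `C` is contained in the union `F` of the fibres over the `a_j` for some such map): all points `P`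
of all degrees over ALL `x` in `K` with `|R(x) - G n| ≤ n ^ θ` satisfy
`m_S(F, P) + (deg K_C / N) h(x) ≤ d(L) - (2 - κ) h(x) + ∑_{p ∈ S} log p + c` for all finite sets `S` of primes and all number
fields `L` over which `P` is defined, and, with finitely many exceptions `x` for each `S`,
`m_S(F, P) + (deg K_C / N) h(x) < d(L) - (2 - κ) h(x)`. The random set `T` may be as dense as `X ^ (1 - d (2 / q - ν) - θ - ε)`
up to `X`, and the exceptional probability for the elements `n ≥ z` of `T` is at most `B z ^ (-η)` if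
`d (2 / q - ν) + θ + η < γ`.

Proof. By the starting theorem `OneExceptionalSet` of this problem the exceptional `x` are in one set with
`O (X ^ (2 / q - ν))` elements with `R(x) ≤ X`. So the `n` such that `R(x)` is near `G n` for one of them form a set with
`O (X ^ (d (2 / q - ν) + θ + ε))` elements up to `X`, and the lemma of Borel and Cantelli for random sets of helper909
applies.
-/

set_option autoImplicit false

namespace Pool.Agent.Results.MP_e44225_nt.RandomSets

open Polynomial IsDedekindDomain NumberField MeasureTheory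
open Pool.Agent.N671.DA (Expanding expanding_pow)
open Pool.Agent.K6.H40.RandNear (rand_windows)
open OneExceptionalSet (coord height proximity counting logDisc canonical Values)

/-- `R(x)`, the exponential of the truncated counting function of `[a_1] + … + [a_q]` at `x` -/
noncomputable def rad {K : Type} [Field K] [NumberField K] {q : ℕ} (a : Fin q → ℚ) (x : K) : ℝ :=
  Real.exp (counting (fun j => algebraMap ℚ K (a j)) x)

/-- each `n` belongs to the random set `T` with probability at most `D * n ^ (-γ)` -/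
def Sparse {Ω : Type} [MeasurableSpace Ω] (P : Measure Ω) (T : Ω → Set ℕ) (γ D : ℝ) : Prop :=
  ∀ n : ℕ, 0 < n → P {ω | n ∈ T ω} ≤ ENNReal.ofReal (D * (n : ℝ) ^ (-γ))

/-- The inequality at all points over all `x` not in `E`, for the curve with the ring of functions `A` over `k` and the
elements `y`: with a constant for all finite sets `S` of primes, and without a constant up to finitely many `x` for each
`S`. -/
def Holds {K : Type} [Field K] [NumberField K] {q : ℕ} (a : Fin q → ℚ) (κ : ℝ) (W : Set K)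
    (k : Type) [Field k] [NumberField k] (A : Type) [CommRing A]
    [Algebra k A] [Algebra k[X] A] {u : Fin q → ℕ} (y : ∀ j, Fin (u j + 1) → A) : Prop :=
  (∃ c : ℝ, ∀ x : K, x ∈ W → (∀ j, x ≠ algebraMap ℚ K (a j)) →
    ∀ (L : Type) [Field L] [NumberField L] [Algebra K L] [Algebra k L] (φ : A →ₐ[k] L),
      φ (coord k A) = algebraMap K L x → ∀ S : Finset ℕ, (∀ p ∈ S, p.Prime) →
        proximity S y φ + canonical k y * height x ≤
          logDisc L - (2 - κ) * height x + ∑ p ∈ S, Real.log p + c) ∧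
  ∀ S : Finset ℕ, (∀ p ∈ S, p.Prime) → ∃ R : Set K, R.Finite ∧
    ∀ x : K, x ∈ W → x ∉ R → (∀ j, x ≠ algebraMap ℚ K (a j)) →
    ∀ (L : Type) [Field L] [NumberField L] [Algebra K L] [Algebra k L] (φ : A →ₐ[k] L),
      φ (coord k A) = algebraMap K L x →
        proximity S y φ + canonical k y * height x < logDisc L - (2 - κ) * height x

/-- the elements `x` of `K`, different from the `a_j`, with `|R(x) - G n| ≤ n ^ θ` for some `n` in `T` with `n ≥ z` -/
def Near (K : Type) [Field K] [NumberField K] {q : ℕ} (a : Fin q → ℚ) (G : ℕ → ℝ) (θ : ℝ) (T : Set ℕ) (z : ℝ) : Set K :=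
  {x : K | (∀ j, x ≠ algebraMap ℚ K (a j)) ∧ ∃ n ∈ T, z ≤ (n : ℝ) ∧ |rad a x - G n| ≤ (n : ℝ) ^ θ}

/-- `Holds` for all number fields `k`, all Dedekind domains `A`, finite over `k[t]` and containing it, and all elements
`y_{j 0} = t - a_j, y_{j 1}, …` of the radicals of the ideals `(t - a_j)` of `A`, for example generators -/
def HoldsForAll {K : Type} [Field K] [NumberField K] {q : ℕ} (a : Fin q → ℚ) (κ : ℝ) (W : Set K) : Prop :=
  ∀ (k : Type) [Field k] [NumberField k] (A : Type) [CommRing A] [IsDedekindDomain A]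
    [Algebra k A] [Algebra k[X] A] [IsScalarTower k k[X] A] [Module.Finite k[X] A]
    [FaithfulSMul k[X] A] (u : Fin q → ℕ) (y : ∀ j, Fin (u j + 1) → A),
    (∀ j, y j 0 = coord k A - algebraMap k A (algebraMap ℚ k (a j))) →
    (∀ j i, y j i ∈ (Ideal.span {coord k A - algebraMap k A (algebraMap ℚ k (a j))}).radical) →
      Holds a κ W k A y

/-- **Theorem.** Let `K` be a number field, `a_1, …, a_q`, `q ≥ 3`, distinct rational numbers and `κ > 0`. There is `ν > 0`
with the following property. Let `G` have steps `≥ a > 0` and growth at most `v ^ d`, `0 ≤ θ ≤ 1`, and let `T` be a random set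
of positive integers, `n` in `T` with probability at most `D n ^ (-γ)`. If `d (2 / q - ν) + θ < γ`, then almost surely there is
`z` such that the inequality holds (`HoldsForAll`) for all number fields `k`, all curves over `k` and ALL `x` in `K` with
`|R(x) - G n| ≤ n ^ θ` for some `n ≥ z` in `T`. If `d (2 / q - ν) + θ + η < γ`, `η ≥ 0`, there is `B` such that for all
`z ≥ 1` the probability that it does not hold for these `x` is at most `B z ^ (-η)`. The functions `a v ^ d` with `a > 0`,
`d ≥ 1` are examples of `G`. -/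
theorem result (K : Type) [Field K] [NumberField K] (q : ℕ) (hq : 3 ≤ q) (a : Fin q → ℚ)
    (ha : Function.Injective a) (κ : ℝ) (hκ : 0 < κ) :
    (∃ ν : ℝ, 0 < ν ∧ ν ≤ 2 / (q : ℝ) ∧ ∀ (G : ℕ → ℝ) (d θ : ℝ), Expanding G d → 0 ≤ θ → θ ≤ 1 →
      ∀ (Ω : Type) [MeasurableSpace Ω] (P : Measure Ω) (T : Ω → Set ℕ) (γ D : ℝ), Sparse P T γ D →
      (d * (2 / (q : ℝ) - ν) + θ < γ → ∀ᵐ ω ∂P, ∃ z : ℝ, HoldsForAll a κ (Near K a G θ (T ω) z)) ∧
      ∀ η : ℝ, 0 ≤ η → d * (2 / (q : ℝ) - ν) + θ + η < γ → ∃ B : ℝ, ∀ z : ℝ, 1 ≤ z →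
        P {ω | ¬ HoldsForAll a κ (Near K a G θ (T ω) z)} ≤ ENNReal.ofReal (B * z ^ (-η))) ∧
    ∀ α d : ℝ, 0 < α → 1 ≤ d → Expanding (fun v => α * (v : ℝ) ^ d) d := by
  refine ⟨?_, fun α d hα hd => expanding_pow hα hd⟩
  obtain ⟨hval, hres⟩ := OneExceptionalSet.result K q hq a ha
  obtain ⟨E, ⟨ν, C, hν, hC, hcount⟩, -, hE⟩ := hres κ hκ
  have hfin : ∀ X : ℝ, 1 ≤ X → (Values K a X).Finite := by
    obtain ⟨⟨C1, h1⟩, -⟩ := hval 1 one_pos
    exact fun X hX => (h1 X hX).1
  have hq0 : (0 : ℝ) < q := by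
    have : 0 < q := by omega
    exact_mod_cast this
  have hg : 0 < 2 / (q : ℝ) := by positivity
  obtain ⟨ν', hν'⟩ : ∃ ν', ν' = min ν (2 / (q : ℝ)) := ⟨_, rfl⟩
  have hν'0 : 0 < ν' := by rw [hν']; exact lt_min hν hg
  have hν'1 : ν' ≤ ν := by rw [hν']; exact min_le_left _ _
  have hν'2 : ν' ≤ 2 / (q : ℝ) := by rw [hν']; exact min_le_right _ _
  have hall : ∀ W : Set K, (∀ x ∈ W, x ∉ E) → HoldsForAll a κ W := by
    intro W hW k _ _ A _ _ _ _ _ _ _ u y hy1 hy2
    obtain ⟨h1, h2⟩ := hE k A u y hy1 hy2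
    constructor
    · obtain ⟨c, hc⟩ := h1
      exact ⟨c, fun x hx hxa L _ _ _ _ φ hφ S hS => hc x (hW x hx) hxa L φ hφ S hS⟩
    · intro S hS
      obtain ⟨R, hR, hR2⟩ := h2 S hS
      exact ⟨R, hR, fun x hx hxR hxa L _ _ _ _ φ hφ => hR2 x (hW x hx) hxR hxa L φ hφ⟩
  refine ⟨ν', hν'0, hν'2, fun G d θ hG hθ hθ1 Ω _ P T γ D hT => ?_⟩
  obtain ⟨S₀, hS₀⟩ : ∃ S₀ : Set K, S₀ = {x : K | x ∈ E ∧ ∀ j, x ≠ algebraMap ℚ K (a j)} := ⟨_, rfl⟩
  obtain ⟨r1, r2⟩ := rand_windows (P := P) S₀ (fun x : K => rad a x) hG (s := 2 / (q : ℝ) - ν') (κ := θ)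
    (by linarith) hθ hθ1 (fun ε hε => by
      refine ⟨C, fun X hX => ?_⟩
      have hX0 : 0 < X := by linarith
      have hsub : {x : K | x ∈ S₀ ∧ rad a x ≤ X} ⊆ E ∩ Values K a X := by
        rintro x ⟨h1, h2⟩
        rw [hS₀] at h1
        refine ⟨h1.1, h1.2, ?_⟩
        rw [Real.le_log_iff_exp_le hX0]
        exact h2
      have hf2 : (E ∩ Values K a X).Finite := (hfin X hX).subset Set.inter_subset_right
      refine ⟨hf2.subset hsub, ?_⟩
      have e1 : X ^ (2 / (q : ℝ) - ν) ≤ X ^ (2 / (q : ℝ) - ν' + ε) :=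
        Real.rpow_le_rpow_of_exponent_le hX (by linarith)
      calc ({x : K | x ∈ S₀ ∧ rad a x ≤ X}.ncard : ℝ) ≤ ((E ∩ Values K a X).ncard : ℝ) := by
            exact_mod_cast Set.ncard_le_ncard hsub hf2
        _ ≤ C * X ^ (2 / (q : ℝ) - ν) := hcount X hX
        _ ≤ C * X ^ (2 / (q : ℝ) - ν' + ε) := mul_le_mul_of_nonneg_left e1 hC.le) (A := T) (γ := γ) (D := D) hT
  refine ⟨fun h => ?_, fun η hη h => ?_⟩
  · filter_upwards [r1 h] with ω hω
    obtain ⟨N, hN⟩ := hω
    refine ⟨N, hall _ ?_⟩
    rintro x ⟨hx, n, hn, hz, hw⟩ hxE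
    refine hN n hn (by exact_mod_cast hz) x ?_ hw
    rw [hS₀]
    exact ⟨hxE, hx⟩
  · obtain ⟨B, hB⟩ := r2 η hη h
    refine ⟨B, fun z hz => (measure_mono ?_).trans (hB z hz)⟩
    intro ω hω
    by_contra hcon
    apply hω
    refine hall _ ?_
    rintro x ⟨hx, n, hn, hzn, hw⟩ hxE
    apply hcon
    refine ⟨n, hn, hzn, x, ?_, hw⟩
    rw [hS₀]
    exact ⟨hxE, hx⟩

end Pool.Agent.Results.MP_e44225_nt.RandomSets
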