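import Pool.Agent.N671.DA.Win
import Pool.Agent.Results.MP_e44225_nt.OneExceptionalSet

/-!
# The error term in Vojta's inequality for all curves at all points over all elements whose radicals are near functions of
# the denominators of good simultaneous approximations

Let `α_1, …, α_m` be real numbers. We consider the natural numbers `n` with `‖n α_j - β_j‖ ≤ c n ^ (-τ)` for all `j`, `‖x‖`
the distance to the nearest integer; for `β = 0`, `c = 1`, `τ = 1 / m` these include the denominators of all best
simultaneous approximations (the denominators of the convergents for `m = 1`). They form a very sparse sequence, with gaps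
growing exponentially for almost all `α` if `τ = 1 / m`. Let `K` be a number field, `a_1, …, a_q`, `q ≥ 3`, distinct rational
numbers and `R(x)` the exponential of the truncated counting function of `[a_1] + … + [a_q]` at `x`; there are
`X ^ (2 / q + o(1))` elements `x` of `K`, of whatever height, with `R(x) ≤ X`. Let `G` have steps bounded below by a positive
constant and growth at most `v ^ d`, for example `a v ^ d`, and `0 ≤ θ ≤ 1`. For `κ > 0` there is `ν > 0` such that for all `α`
in `ℝ^m` outside a set of Hausdorff dimension at most `(m + d (2 / q - ν) + θ) / (1 + τ)`, the same set for all curves, and for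
all `c` the following holds for the large `n` with `‖n α_j - β_j‖ ≤ c n ^ (-τ)`: for ALL number fields `k`, ALL smooth projective
curves `C` over `k` and ALL finite maps `t : C → ℙ¹` over `k` which are unramified outside the fibres over the `a_j` (by Belyi's
theorem every curve has such maps, and every reduced divisor `D` of `C` is contained in the union `F` of the fibres over the
`a_j` for some such map) all points `P` of all degrees over ALL `x` in `K` with `|R(x) - G n| ≤ n ^ θ` satisfy
`m_S(F, P) + (deg K_C / N) h(x) ≤ d(L) - (2 - κ) h(x) + ∑_{p ∈ S} log p + c'` for all finite sets `S` of primes and all number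
fields `L` over which `P` is defined, and, with finitely many exceptions `x` for each `S`,
`m_S(F, P) + (deg K_C / N) h(x) < d(L) - (2 - κ) h(x)`. For `τ = 1 / m` and `d (2 / q - ν) + θ < 1` the bound is less than `m`,
and so the statement holds for almost all `α`.

Proof. By the starting theorem `OneExceptionalSet` of this problem the exceptional `x` are in one set with
`O (X ^ (2 / q - ν))` elements with `R(x) ≤ X`. So the `n` such that `R(x)` is near `G n` for one of them form a set with
`O (X ^ (d (2 / q - ν) + θ + ε))` elements up to `X`; and the `α` with `‖n α_j - β_j‖ ≤ c n ^ (-τ)` for all `j` and infinitely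
many `n` of such a set are covered by few small cubes (tool of helper671, `N671/DA`).
-/

set_option autoImplicit false

namespace Pool.Agent.Results.MP_e44225_nt.SimultaneousApproximations

open Polynomial IsDedekindDomain NumberField
open Pool.Agent.N671.DA (Solves Expanding expanding_pow approx_windows)
open OneExceptionalSet (coord height proximity counting logDisc canonical Values)

/-- `R(x)`, the exponential of the truncated counting function of `[a_1] + … + [a_q]` at `x` -/
noncomputable def rad {K : Type} [Field K] [NumberField K] {q : ℕ} (a : Fin q → ℚ) (x : K) : ℝ :=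
  Real.exp (counting (fun j => algebraMap ℚ K (a j)) x)

/-- **Theorem.** Let `K` be a number field, `a_1, …, a_q`, `q ≥ 3`, distinct rational numbers and `κ > 0`. There is `ν > 0`
with the following property. Let `G` have steps `≥ a > 0` and growth at most `v ^ d`, `0 ≤ θ ≤ 1`, `β` in `ℝ^m` and `τ > 0`.
There is a set `E` in `ℝ^m` of Hausdorff dimension at most `(m + d (2 / q - ν) + θ) / (1 + τ)`, such that for all `α` not in
`E` and all `c` there is `n₀` such that the following holds for all number fields `k`. Let `A` be a Dedekind domain, finite over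
`k[t]` and containing it, and let `y_{j 0} = t - a_j, y_{j 1}, …` be elements of the radical of the ideal `(t - a_j)` of `A`, for
example generators. Write `g` for `q - 2 - (∑_j dim (A / (y_{j 0}, y_{j 1}, …))) / N`. (a) There is a constant `c'` such that for
all `n ≥ n₀` with `‖n α_j - β_j‖ ≤ c n ^ (-τ)` for all `j` (`Solves α β n (c n ^ (-τ))`) and ALL `x` in `K`, different from the
`a_j`, with `|R(x) - G n| ≤ n ^ θ`, all points `P` of the curve with `t(P) = x`, all number fields `L` containing `k` and `K` over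
which `P` is defined and all finite sets `S` of primes satisfy
`m_S(F, P) + g h(x) ≤ d(L) - (2 - κ) h(x) + ∑_{p ∈ S} log p + c'`. (b) For every finite set `S` of primes, all but finitely many
of these `x` satisfy `m_S(F, P) + g h(x) < d(L) - (2 - κ) h(x)` for all these `P` and `L`. In particular, for `τ = 1 / m` and
`d (2 / q - ν) + θ < 1` this holds for all `α` outside a set of dimension less than `m`. The functions `a v ^ d` with `a > 0`,
`d ≥ 1` are examples of `G`. -/
theorem result (K : Type) [Field K] [NumberField K] (q : ℕ) (hq : 3 ≤ q) (a : Fin q → ℚ)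
    (ha : Function.Injective a) (κ : ℝ) (hκ : 0 < κ) :
    (∃ ν : ℝ, 0 < ν ∧ ν ≤ 2 / (q : ℝ) ∧ ∀ (G : ℕ → ℝ) (d θ : ℝ), Expanding G d → 0 ≤ θ → θ ≤ 1 →
      ∀ (m : ℕ) (β : Fin m → ℝ) (τ : ℝ), 0 < τ →
      ∃ E : Set (Fin m → ℝ), dimH E ≤ ENNReal.ofReal ((m + (d * (2 / (q : ℝ) - ν) + θ)) / (1 + τ)) ∧
      ∀ α, α ∉ E → ∀ c : ℝ, ∃ n₀ : ℕ,
      ∀ (k : Type) [Field k] [NumberField k] (A : Type) [CommRing A] [IsDedekindDomain A]
        [Algebra k A] [Algebra k[X] A] [IsScalarTower k k[X] A] [Module.Finite k[X] A]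
        [FaithfulSMul k[X] A] (u : Fin q → ℕ) (y : ∀ j, Fin (u j + 1) → A),
        (∀ j, y j 0 = coord k A - algebraMap k A (algebraMap ℚ k (a j))) →
        (∀ j i, y j i ∈
          (Ideal.span {coord k A - algebraMap k A (algebraMap ℚ k (a j))}).radical) →
        (∃ c' : ℝ, ∀ n : ℕ, n₀ ≤ n → Solves α β n (c * (n : ℝ) ^ (-τ)) → ∀ x : K,
          (∀ j, x ≠ algebraMap ℚ K (a j)) → |rad a x - G n| ≤ (n : ℝ) ^ θ →
          ∀ (L : Type) [Field L] [NumberField L] [Algebra K L] [Algebra k L] (φ : A →ₐ[k] L),
            φ (coord k A) = algebraMap K L x → ∀ S : Finset ℕ, (∀ p ∈ S, p.Prime) →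
              proximity S y φ + canonical k y * height x ≤
                logDisc L - (2 - κ) * height x + ∑ p ∈ S, Real.log p + c') ∧
        ∀ S : Finset ℕ, (∀ p ∈ S, p.Prime) → ∃ R : Set K, R.Finite ∧
          ∀ n : ℕ, n₀ ≤ n → Solves α β n (c * (n : ℝ) ^ (-τ)) → ∀ x : K, x ∉ R →
          (∀ j, x ≠ algebraMap ℚ K (a j)) → |rad a x - G n| ≤ (n : ℝ) ^ θ →
          ∀ (L : Type) [Field L] [NumberField L] [Algebra K L] [Algebra k L] (φ : A →ₐ[k] L),
            φ (coord k A) = algebraMap K L x →
              proximity S y φ + canonical k y * height x < logDisc L - (2 - κ) * height x) ∧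
    (∀ (m : ℕ) (s : ℝ), 1 ≤ m → s < 1 → ((m : ℝ) + s) / (1 + 1 / (m : ℝ)) < m) ∧
    ∀ α d : ℝ, 0 < α → 1 ≤ d → Expanding (fun v => α * (v : ℝ) ^ d) d := by
  refine ⟨?_, fun m s hm hs => ?_, fun α d hα hd => expanding_pow hα hd⟩
  · obtain ⟨hval, hres⟩ := OneExceptionalSet.result K q hq a ha
    obtain ⟨E, ⟨ν, C, hν, hC, hcount⟩, -, hE⟩ := hres κ hκ
    have hfin : ∀ X : ℝ, 1 ≤ X → (Values K a X).Finite := by
      obtain ⟨⟨C1, h1⟩, -⟩ := hval 1 one_pos
      exact fun X hX => (h1 X hX).1
    have hq0 : (0 : ℝ) < q := by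
      have : 0 < q := by omega
      exact_mod_cast this
    have hg : 0 < 2 / (q : ℝ) := by positivity
    obtain ⟨ν', hν'⟩ : ∃ ν', ν' = min ν (2 / (q : ℝ)) := ⟨_, rfl⟩
    have hν'0 : 0 < ν' := by rw [hν']; exact lt_min hν hg
    have hν'1 : ν' ≤ ν := by rw [hν']; exact min_le_left _ _
    have hν'2 : ν' ≤ 2 / (q : ℝ) := by rw [hν']; exact min_le_right _ _
    refine ⟨ν', hν'0, hν'2, fun G d θ hG hθ hθ1 m β τ hτ => ?_⟩
    obtain ⟨S₀, hS₀⟩ : ∃ S₀ : Set K, S₀ = {x : K | x ∈ E ∧ ∀ j, x ≠ algebraMap ℚ K (a j)} := ⟨_, rfl⟩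
    obtain ⟨Ex, hEx, hEx2⟩ := approx_windows S₀ (fun x : K => rad a x) hG (s := 2 / (q : ℝ) - ν') (κ := θ)
      (by linarith) hθ hθ1 (fun ε hε => by
        refine ⟨C, fun X hX => ?_⟩
        have hX0 : 0 < X := by linarith
        have hsub : {x : K | x ∈ S₀ ∧ rad a x ≤ X} ⊆ E ∩ Values K a X := by
          rintro x ⟨h1, h2⟩
          rw [hS₀] at h1
          refine ⟨h1.1, h1.2, ?_⟩
          rw [Real.le_log_iff_exp_le hX0]
          exact h2
        have hf2 : (E ∩ Values K a X).Finite := (hfin X hX).subset Set.inter_subset_right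
        refine ⟨hf2.subset hsub, ?_⟩
        have e1 : X ^ (2 / (q : ℝ) - ν) ≤ X ^ (2 / (q : ℝ) - ν' + ε) :=
          Real.rpow_le_rpow_of_exponent_le hX (by linarith)
        calc ({x : K | x ∈ S₀ ∧ rad a x ≤ X}.ncard : ℝ) ≤ ((E ∩ Values K a X).ncard : ℝ) := by
              exact_mod_cast Set.ncard_le_ncard hsub hf2
          _ ≤ C * X ^ (2 / (q : ℝ) - ν) := hcount X hX
          _ ≤ C * X ^ (2 / (q : ℝ) - ν' + ε) := mul_le_mul_of_nonneg_left e1 hC.le) β hτ
    refine ⟨Ex, hEx, fun α hα c => ?_⟩
    obtain ⟨n₀, hn₀⟩ := hEx2 α hα c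
    refine ⟨n₀, fun k _ _ A _ _ _ _ _ _ _ u y hy1 hy2 => ?_⟩
    obtain ⟨h1, h2⟩ := hE k A u y hy1 hy2
    have hnot : ∀ (n : ℕ) (x : K), n₀ ≤ n → Solves α β n (c * (n : ℝ) ^ (-τ)) →
        (∀ j, x ≠ algebraMap ℚ K (a j)) → |rad a x - G n| ≤ (n : ℝ) ^ θ → x ∉ E := by
      intro n x hn hsol hx hw hxE
      refine hn₀ n hn hsol x ?_ hw
      rw [hS₀]
      exact ⟨hxE, hx⟩
    constructor
    · obtain ⟨c', hc'⟩ := h1
      exact ⟨c', fun n hn hsol x hx hw L _ _ _ _ φ hφ S hS => hc' x (hnot n x hn hsol hx hw) hx L φ hφ S hS⟩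
    · intro S hS
      obtain ⟨R, hR, hR2⟩ := h2 S hS
      exact ⟨R, hR, fun n hn hsol x hxR hx hw L _ _ _ _ φ hφ => hR2 x (hnot n x hn hsol hx hw) hxR hx L φ hφ⟩
  · have hm0 : (0 : ℝ) < m := by exact_mod_cast (by omega : 0 < m)
    rw [div_lt_iff₀ (by positivity)]
    field_simp
    nlinarith

end Pool.Agent.Results.MP_e44225_nt.SimultaneousApproximations
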